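import Pool.Agent.Run7.h677.PS.Stm

set_option autoImplicit false

/-! # Project PS, piece CHAIN -/

namespace Pool.Agent.Run7.h677.PS
open Finset

theorem chain_Acol_zero (d : ℕ) : Acol d 0 = univ := by
  ext i
  simp only [Acol, mem_filter, mem_univ, true_and, iff_true]
  omega

theorem chain_Acol_last (d : ℕ) : Acol d d = {0} := by
  ext i
  simp only [Acol, mem_filter, mem_univ, true_and, mem_singleton]
  constructor
  · intro h
    apply Fin.ext
    simp only [Fin.val_zero]
    omega
  · intro h
    subst h
    simp

theorem t_CHAIN (hSTEP : S_STEP) : S_CHAIN := by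
  intro V _ d n T I Far b η h
  by_contra hlt
  rw [not_le] at hlt
  have hlev : ∀ k, k ≤ d → ∃ g, Lvl d n T I Far b η k g := by
    intro k
    induction k with
    | zero =>
      intro _
      refine ⟨fun _ _ => 0, ?_⟩
      have hC : ∀ σ f, Cf 0 I (fun _ _ => 0) σ f = I σ univ f := by
        intro σ f
        simp [Cf, chain_Acol_zero]
      constructor
      · intro σ _ _ f f' hf
        rw [hC, hC]
        exact h.dep σ univ f f' (by rw [chain_Acol_zero] at hf; exact hf)
      · intro σ hσ hc
        simp only [hC]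
        have := h.cnt0 σ hσ (by omega)
        simpa using this
      · intro σ hσ hc f f'
        simp only [hC, chain_Acol_zero]
        exact h.base σ hσ (by omega) f f'
      · intro τ _ f
        rfl
    | succ k ih =>
      intro hk
      obtain ⟨g, hg⟩ := ih (by omega)
      exact hSTEP V d n T I Far b η h k hk g hg
  obtain ⟨g, hg⟩ := hlev d le_rfl
  have hn : 1 ≤ n := h.hn
  have : NeZero n := ⟨by omega⟩
  -- the chain is constant in the tuple
  have hconst : ∀ s ∈ T, ∀ f f', Cf d I g s f = Cf d I g s f' := by
    intro s hs f f'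
    have hs' : s ∈ Faces T := ⟨s, hs, subset_rfl⟩
    have h1 := hg.closed s hs' (h.cardT s hs) f f'
    rw [chain_Acol_last, show ({0} : Finset (Fin (d + 1))) = insert 0 ∅ from rfl,
      Finset.sum_powerset_insert (notMem_empty 0), powerset_empty, sum_singleton,
      sum_singleton] at h1
    have hm : mix f f' ∅ = f := by
      funext i
      simp [mix]
    have h2 : Cf d I g s (mix f f' ∅) = Cf d I g s f := by rw [hm]
    have h3 : Cf d I g s (mix f f' (insert 0 ∅)) = Cf d I g s f' := by
      apply hg.dep s hs' (h.cardT s hs)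
      intro i hi
      rw [chain_Acol_last, mem_singleton] at hi
      subst hi
      simp [mix]
    rw [h2, h3] at h1
    exact CharTwo.add_eq_zero.1 h1
  have hzero : ∀ s ∈ T, ∀ f, Cf d I g s f = 0 := by
    intro s hs f
    by_contra hne
    have hs' : s ∈ Faces T := ⟨s, hs, subset_rfl⟩
    have h1 := hg.cnt s hs' (h.cardT s hs)
    have h2 : {f : Tup d n | Cf d I g s f ≠ 0} = Set.univ := by
      ext f'
      simp only [Set.mem_ofPred_eq, Set.mem_univ, iff_true]
      rw [← hconst s hs f f']
      exact hne
    rw [h2, Set.ncard_univ, Nat.card_eq_fintype_card] at h1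
    have h3 : Fintype.card (Tup d n) = n ^ (d + 1) := by
      simp [Tup]
    rw [h3] at h1
    push_cast at h1
    have h4 : (0 : ℝ) < (n : ℝ) ^ (d + 1) := by
      have : (0 : ℝ) < n := by exact_mod_cast hn
      positivity
    have h5 : ((d + 1).factorial : ℝ) * (b + d * η) * (n : ℝ) ^ (d + 1) < 1 * (n : ℝ) ^ (d + 1) :=
      mul_lt_mul_of_pos_right hlt h4
    linarith
  let f : Tup d n := fun _ => 0
  have h1 : ∑ s ∈ T, Cf d I g s f = 0 := sum_eq_zero fun s hs => hzero s hs f
  have h2 : ∑ s ∈ T, Cf d I g s f = 1 := by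
    unfold Cf
    rw [sum_add_distrib, chain_Acol_last, h.one f, h.bdry (fun τ => g τ f)
      (fun τ hτ => hg.far τ hτ f), add_zero]
  rw [h1] at h2
  exact absurd h2 (by decide)

end Pool.Agent.Run7.h677.PS
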