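import Pool.Agent.Run7.h677.PS.Stm

set_option autoImplicit false

/-! # Project PS, piece H0 -/

namespace Pool.Agent.Run7.h677.PS
open Finset

theorem h0_mix_indep {d n : ℕ} (X : Fin (d + 1) → Fin n → E d) (σ : Finset (E d))
    (A : Finset (Fin (d + 1))) (f g : Tup d n) (h : ∀ i ∈ A, f i = g i) :
    Ind X σ A f = Ind X σ A g := by
  have : hullX X A f = hullX X A g := by
    unfold hullX
    congr 1
    apply Set.image_congr
    intro i hi
    rw [h i (by exact_mod_cast hi)]
  unfold Ind
  rw [this]

theorem h0_sum_zero {d n : ℕ} (X : Fin (d + 1) → Fin n → E d) (σ : Finset (E d))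
    (f f' : Tup d n) (i : Fin (d + 1)) :
    ∑ B ∈ (univ : Finset (Fin (d + 1))).powerset, Ind X σ (univ.erase i) (mix f f' B) = 0 := by
  have hu : (univ : Finset (Fin (d + 1))) = insert i (univ.erase i) := by
    rw [insert_erase (mem_univ i)]
  rw [show (univ : Finset (Fin (d + 1))).powerset = (insert i (univ.erase i)).powerset by
    rw [insert_erase (mem_univ i)], Finset.sum_powerset_insert (notMem_erase i univ)]
  rw [← sum_add_distrib]
  apply sum_eq_zero
  intro B hB
  have : Ind X σ (univ.erase i) (mix f f' (insert i B)) = Ind X σ (univ.erase i) (mix f f' B) := by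
    apply h0_mix_indep
    intro j hj
    have hji : j ≠ i := (mem_erase.1 hj).1
    simp [mix, hji]
  rw [this]
  exact CharTwo.add_self_eq_zero _

theorem t_H0 (hPARI : S_PARI) (hEXTQ : S_EXTQ) : S_H0 := by
  intro d n X p f f' hd hGP
  -- a ball which contains all the points
  obtain ⟨R, hR⟩ : ∃ R : ℝ, ∀ i j, ‖X i j‖ ≤ R := by
    refine ⟨∑ i, ∑ j, ‖X i j‖, fun i j => ?_⟩
    calc ‖X i j‖ ≤ ∑ j, ‖X i j‖ := single_le_sum (f := fun j => ‖X i j‖)
          (fun _ _ => norm_nonneg _) (mem_univ j)
      _ ≤ ∑ i, ∑ j, ‖X i j‖ := single_le_sum (f := fun i => ∑ j, ‖X i j‖)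
          (fun _ _ => sum_nonneg fun _ _ => norm_nonneg _) (mem_univ i)
  have hU : IsOpen (Metric.closedBall (0 : E d) (max R ‖p‖))ᶜ := Metric.isClosed_closedBall.isOpen_compl
  have hne : ((Metric.closedBall (0 : E d) (max R ‖p‖))ᶜ).Nonempty := by
    obtain ⟨x, hx⟩ : ∃ x : E d, x ≠ 0 := by
      have : Nontrivial (E d) := by
        have : Nonempty (Fin d) := ⟨⟨0, hd⟩⟩
        infer_instance
      exact exists_ne 0
    have hx' : 0 < ‖x‖ := norm_pos_iff.2 hx
    refine ⟨((|max R ‖p‖| + 1) / ‖x‖) • x, ?_⟩
    simp only [Set.mem_compl_iff, Metric.mem_closedBall, dist_zero_right, not_le]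
    rw [norm_smul, Real.norm_of_nonneg (by positivity), div_mul_cancel₀ _ hx'.ne']
    have := le_abs_self (max R ‖p‖)
    linarith
  obtain ⟨q, hqU, hq1, hq2⟩ := hEXTQ d (Fin (d + 1) × Fin n) (unc X) {∅, {p}} hd
    (Set.toFinite _) hGP _ hU hne
  have hqp : q ≠ p := by
    intro h
    apply hq1 {p} (by simp)
    simp [h]
  have hpq : p ≠ q := fun h => hqp h.symm
  have hsub : GP (unc X) {τ | τ ⊆ ({p, q} : Finset (E d))} := by
    intro σ hσ y hy
    refine hq2 σ ?_ y hy
    have hσ' : σ ⊆ ({p, q} : Finset (E d)) := hσ
    by_cases hqσ : q ∈ σ
    · right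
      refine ⟨σ.erase q, ?_, ?_⟩
      · by_cases hpσ : p ∈ σ
        · right
          apply Finset.ext
          intro v
          simp only [mem_erase, mem_singleton]
          constructor
          · rintro ⟨hv1, hv2⟩
            have := hσ' hv2
            simp only [mem_insert, mem_singleton] at this
            tauto
          · rintro rfl
            exact ⟨hpq, hpσ⟩
        · left
          apply Finset.eq_empty_of_forall_notMem
          intro v hv
          rw [mem_erase] at hv
          have := hσ' hv.2
          simp only [mem_insert, mem_singleton] at this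
          rcases this with h | h
          · subst h; exact hpσ hv.2
          · exact hv.1 h
      · intro v
        rw [mem_erase]
        constructor
        · intro hv
          by_cases h : v = q
          · exact Or.inl h
          · exact Or.inr ⟨h, hv⟩
        · rintro (h | h)
          · subst h; exact hqσ
          · exact h.2
    · left
      by_cases hpσ : p ∈ σ
      · right
        apply Finset.ext
        intro v
        rw [mem_singleton]
        constructor
        · intro hv
          have := hσ' hv
          simp only [mem_insert, mem_singleton] at this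
          rcases this with h | h
          · exact h
          · subst h; exact absurd hv hqσ
        · rintro rfl
          exact hpσ
      · left
        apply Finset.eq_empty_of_forall_notMem
        intro v hv
        have := hσ' hv
        simp only [mem_insert, mem_singleton] at this
        rcases this with h | h
        · subst h; exact hpσ hv
        · subst h; exact hqσ hv
  -- the parity identity
  have hkey : ∀ h : Tup d n, Ind X {p} univ h = ∑ i, Ind X {p, q} (univ.erase i) h := by
    intro h
    have h1 := hPARI d n X {p, q} univ h (by rw [card_pair hpq, card_univ, Fintype.card_fin]; omega)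
      hsub
    rw [sum_pair hpq] at h1
    have e1 : ({p, q} : Finset (E d)).erase p = {q} := by
      rw [erase_insert (by simpa using hpq)]
    have e2 : ({p, q} : Finset (E d)).erase q = {p} := by
      rw [pair_comm, erase_insert (by simpa using hqp)]
    rw [e1, e2] at h1
    have h2 : Ind X {q} univ h = 0 := by
      unfold Ind
      rw [if_neg]
      rintro ⟨x, hx1, hx2⟩
      rw [coe_singleton, convexHull_singleton, Set.mem_singleton_iff] at hx1
      subst hx1
      apply hqU
      have hsubset : hullX X univ h ⊆ Metric.closedBall (0 : E d) (max R ‖p‖) := by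
        apply convexHull_min _ (convex_closedBall _ _)
        rintro _ ⟨i, _, rfl⟩
        rw [Metric.mem_closedBall, dist_zero_right]
        exact (hR i (h i)).trans (le_max_left _ _)
      exact hsubset hx2
    rw [h2, zero_add] at h1
    exact h1
  simp only [hkey]
  rw [sum_comm]
  exact sum_eq_zero fun i _ => h0_sum_zero X {p, q} f f' i

end Pool.Agent.Run7.h677.PS
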