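import Pool.Agent.Run7.h677.PS.Stm

set_option autoImplicit false

/-! # Project PS, piece PARI -/

namespace Pool.Agent.Run7.h677.PS
open Finset

theorem t_PARI (hPARB : S_PARB) : S_PARI := by
  classical
  intro d n X σ A f hcard hGP
  let z : σ ⊕ A → E d := Sum.elim (fun v => (v : E d)) (fun i => X i (f i))
  let S : Finset (σ ⊕ A) := univ.filter (fun a => a.isLeft = true)
  have hl : ∀ u : σ, (Sum.inl u : σ ⊕ A) ∈ S := fun u => by simp [S]
  have hr : ∀ i : A, (Sum.inr i : σ ⊕ A) ∉ S := fun i => by simp [S]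
  have haff : ∀ t : Finset (σ ⊕ A), t.card ≤ d + 1 →
      AffineIndependent ℝ (fun i : t => z i) := by
    intro t ht
    let τ : Finset (E d) := t.toLeft.map (Function.Embedding.subtype _)
    let em : A ↪ Fin (d + 1) × Fin n := ⟨fun i => (i.1, f i.1), fun i j hij => by
      have := congrArg Prod.fst hij
      exact Subtype.ext this⟩
    let y : Finset (Fin (d + 1) × Fin n) := t.toRight.map em
    have hτ : τ ⊆ σ := by
      intro v hv
      simp only [τ, mem_map, Function.Embedding.coe_subtype] at hv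
      obtain ⟨u, _, rfl⟩ := hv
      exact u.2
    have hc : τ.card + y.card ≤ d + 1 := by
      simp only [τ, y, card_map]
      rw [card_toLeft_add_card_toRight]
      exact ht
    have h1 := hGP τ hτ y hc
    let e : t → τ ⊕ y := fun a => match a with
      | ⟨Sum.inl u, hu⟩ => Sum.inl ⟨u.1, by
          simp only [τ, mem_map, Function.Embedding.coe_subtype]
          exact ⟨u, by simpa using hu, rfl⟩⟩
      | ⟨Sum.inr i, hi⟩ => Sum.inr ⟨(i.1, f i.1), by
          simp only [y, mem_map]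
          exact ⟨i, by simpa using hi, rfl⟩⟩
    have he : Function.Injective e := by
      rintro ⟨a, ha⟩ ⟨b, hb⟩ hab
      rcases a with u | i <;> rcases b with v | j
      · have h2 := Sum.inl_injective hab
        have h3 : u.1 = v.1 := Subtype.mk.inj h2
        have h4 : u = v := Subtype.ext h3
        subst h4
        rfl
      · exact absurd hab (by simp [e])
      · exact absurd hab (by simp [e])
      · have h2 := Sum.inr_injective hab
        have h3 : (i.1, f i.1) = (j.1, f j.1) := congrArg Subtype.val h2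
        have h4 : i = j := Subtype.ext (congrArg Prod.fst h3)
        subst h4
        rfl
    have h2 := h1.comp_embedding ⟨e, he⟩
    have h3 : (fun i : t => z i) = (Sum.elim (fun v : τ => (v : E d)) (fun i : y => unc X i)) ∘
        (⟨e, he⟩ : t ↪ τ ⊕ y) := by
      funext a
      obtain ⟨a, ha⟩ := a
      rcases a with u | i
      · rfl
      · rfl
    rw [h3]
    exact h2
  have h := hPARB d (σ ⊕ A) z S (by simp [hcard]) haff
  have hz1 : ∀ v : σ, z '' ((S.erase (Sum.inl v) : Finset (σ ⊕ A)) : Set (σ ⊕ A)) =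
      (σ : Set (E d)) \ {(v : E d)} := by
    intro v
    ext x
    simp only [Set.mem_image, mem_coe, mem_erase, Set.mem_sdiff, Set.mem_singleton_iff]
    constructor
    · rintro ⟨a, ⟨ha1, ha2⟩, rfl⟩
      rcases a with u | i
      · exact ⟨u.2, fun hh => ha1 (congrArg Sum.inl (Subtype.ext hh))⟩
      · exact absurd ha2 (hr i)
    · rintro ⟨hx, hxv⟩
      refine ⟨Sum.inl ⟨x, hx⟩, ⟨fun hh => hxv ?_, hl _⟩, rfl⟩
      exact congrArg Subtype.val (Sum.inl_injective hh)
  have hz2 : ∀ v : σ, z '' ((Sᶜ.erase (Sum.inl v) : Finset (σ ⊕ A)) : Set (σ ⊕ A)) =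
      (fun i => X i (f i)) '' (A : Set (Fin (d + 1))) := by
    intro v
    ext x
    simp only [Set.mem_image, mem_coe, mem_erase, mem_compl]
    constructor
    · rintro ⟨a, ⟨ha1, ha2⟩, rfl⟩
      rcases a with u | i
      · exact absurd (hl u) ha2
      · exact ⟨i.1, i.2, rfl⟩
    · rintro ⟨i, hi, rfl⟩
      exact ⟨Sum.inr ⟨i, hi⟩, ⟨by simp, hr _⟩, rfl⟩
  have hz3 : ∀ i : A, z '' ((S.erase (Sum.inr i) : Finset (σ ⊕ A)) : Set (σ ⊕ A)) =
      (σ : Set (E d)) := by
    intro i
    ext x
    simp only [Set.mem_image, mem_coe, mem_erase]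
    constructor
    · rintro ⟨a, ⟨ha1, ha2⟩, rfl⟩
      rcases a with u | i
      · exact u.2
      · exact absurd ha2 (hr i)
    · intro hx
      exact ⟨Sum.inl ⟨x, hx⟩, ⟨by simp, hl _⟩, rfl⟩
  have hz4 : ∀ i : A, z '' ((Sᶜ.erase (Sum.inr i) : Finset (σ ⊕ A)) : Set (σ ⊕ A)) =
      (fun i => X i (f i)) '' ((A : Set (Fin (d + 1))) \ {i.1}) := by
    intro i
    ext x
    simp only [Set.mem_image, mem_coe, mem_erase, mem_compl, Set.mem_sdiff,
      Set.mem_singleton_iff]
    constructor
    · rintro ⟨a, ⟨ha1, ha2⟩, rfl⟩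
      rcases a with u | j
      · exact absurd (hl u) ha2
      · exact ⟨j.1, ⟨j.2, fun hh => ha1 (congrArg Sum.inr (Subtype.ext hh))⟩, rfl⟩
    · rintro ⟨j, ⟨hj, hji⟩, rfl⟩
      refine ⟨Sum.inr ⟨j, hj⟩, ⟨fun hh => hji ?_, hr _⟩, rfl⟩
      exact congrArg Subtype.val (Sum.inr_injective hh)
  set P : σ ⊕ A → Prop := fun v =>
    (convexHull ℝ (z '' ((S.erase v : Finset (σ ⊕ A)) : Set (σ ⊕ A))) ∩
      convexHull ℝ (z '' ((Sᶜ.erase v : Finset (σ ⊕ A)) : Set (σ ⊕ A)))).Nonempty with hP
  have hc1 : ({v | P v}.ncard : ZMod 2) = ∑ a : σ ⊕ A, if P a then (1 : ZMod 2) else 0 := by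
    rw [Finset.sum_boole]
    congr 1
    rw [← Set.ncard_coe_finset]
    congr 1
    ext a
    simp
  have hc0 : ({v | P v}.ncard : ZMod 2) = 0 := by
    obtain ⟨m, hm⟩ := h
    rw [hm]
    push_cast
    exact CharTwo.add_self_eq_zero _
  rw [hc0, Fintype.sum_sum_type] at hc1
  have e1 : ∀ v : σ, (if P (Sum.inl v) then (1 : ZMod 2) else 0) =
      Ind X (σ.erase (v : E d)) A f := by
    intro v
    have : P (Sum.inl v) ↔ (convexHull ℝ ((σ.erase (v : E d) : Finset (E d)) : Set (E d)) ∩
        hullX X A f).Nonempty := by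
      rw [hP]
      simp only [hullX]
      rw [hz1 v, hz2 v, coe_erase]
    unfold Ind
    simp only [this]
  have e2 : ∀ i : A, (if P (Sum.inr i) then (1 : ZMod 2) else 0) =
      Ind X σ (A.erase (i : Fin (d + 1))) f := by
    intro i
    have : P (Sum.inr i) ↔ (convexHull ℝ (σ : Set (E d)) ∩
        hullX X (A.erase (i : Fin (d + 1))) f).Nonempty := by
      rw [hP]
      simp only [hullX]
      rw [hz3 i, hz4 i, coe_erase]
    unfold Ind
    simp only [this]
  simp only [e1, e2] at hc1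
  rw [Finset.sum_coe_sort σ (fun v => Ind X (σ.erase v) A f),
    Finset.sum_coe_sort A (fun i => Ind X σ (A.erase i) f)] at hc1
  have hc2 := CharTwo.add_eq_zero.1 hc1.symm
  convert hc2

end Pool.Agent.Run7.h677.PS
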