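import Pool.Agent.Run7.h677.PS.Stm

set_option autoImplicit false

/-! # Project PS, piece PGP -/

namespace Pool.Agent.Run7.h677.PS
open Finset

/-- successive application of the cutting lemma -/
theorem pgp_iter (hCUT : S_CUT) {d n : ℕ} (hd : 1 ≤ d) (X : Fin (d + 1) → Fin n → E d) (p : E d)
    (hGP : GP (unc X) {∅, {p}}) (Y : Fin (d + 1) → Finset (Fin n))
    (hY : ∀ j, (2 * (d + 1) * d : ℝ) * (2 * (d + 1)) ^ (d + 1) ≤ ((Y j).card : ℝ)) :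
    ∀ k, k ≤ d + 1 → ∃ Z : Fin (d + 1) → Finset (Fin n),
      (∀ j, Z j ⊆ Y j ∧ ((Y j).card : ℝ) ≤ (2 * (d + 1)) ^ k * ((Z j).card : ℝ)) ∧
      ∀ i : Fin (d + 1), (i : ℕ) < k →
        p ∉ convexHull ℝ {x : E d | ∃ j, j ≠ i ∧ ∃ y ∈ Z j, x = X j y} := by
  intro k
  induction k with
  | zero =>
    intro _
    exact ⟨Y, fun j => ⟨subset_rfl, by simp⟩, fun i hi => absurd hi (by omega)⟩
  | succ k ih =>
    intro hk
    obtain ⟨Z, hZ1, hZ2⟩ := ih (by omega)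
    have hc1 : (1 : ℝ) ≤ 2 * (d + 1) := by
      have : (0 : ℝ) ≤ d := Nat.cast_nonneg d
      linarith
    have hlarge : ∀ j, 2 * (d + 1) * d ≤ (Z j).card := by
      intro j
      have h1 := hY j
      have h2 := (hZ1 j).2
      have h3 : ((2 : ℝ) * (d + 1)) ^ k ≤ (2 * (d + 1)) ^ (d + 1) :=
        pow_le_pow_right₀ hc1 (by omega)
      have h4 : (0 : ℝ) < (2 * (d + 1)) ^ (d + 1) := by positivity
      have h5 : (2 * (d + 1) * d : ℝ) * (2 * (d + 1)) ^ (d + 1) ≤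
          (2 * (d + 1)) ^ (d + 1) * ((Z j).card : ℝ) :=
        h1.trans (h2.trans (mul_le_mul_of_nonneg_right h3 (Nat.cast_nonneg _)))
      have h6 : (2 * (d + 1) * d : ℝ) ≤ ((Z j).card : ℝ) := by
        have h7 : (2 * (d + 1) * d : ℝ) * (2 * (d + 1)) ^ (d + 1) ≤
            ((Z j).card : ℝ) * (2 * (d + 1)) ^ (d + 1) := by linarith
        exact le_of_mul_le_mul_right h7 h4
      exact_mod_cast h6
    obtain ⟨Z', hZ'1, hZ'2⟩ := hCUT d n X p hd hGP ⟨k, by omega⟩ Z hlarge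
    refine ⟨Z', fun j => ⟨(hZ'1 j).1.trans (hZ1 j).1, ?_⟩, ?_⟩
    · have h1 := (hZ1 j).2
      have h2 : ((Z j).card : ℝ) ≤ 2 * (d + 1) * ((Z' j).card : ℝ) := by
        exact_mod_cast (hZ'1 j).2
      calc ((Y j).card : ℝ) ≤ (2 * (d + 1)) ^ k * ((Z j).card : ℝ) := h1
        _ ≤ (2 * (d + 1)) ^ k * (2 * (d + 1) * ((Z' j).card : ℝ)) :=
            mul_le_mul_of_nonneg_left h2 (by positivity)
        _ = (2 * (d + 1)) ^ (k + 1) * ((Z' j).card : ℝ) := by ring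
    · intro i hi
      rcases Nat.lt_succ_iff_lt_or_eq.1 hi with h | h
      · intro hp
        refine hZ2 i h (convexHull_mono ?_ hp)
        rintro x ⟨j, hj, y, hy, rfl⟩
        exact ⟨j, hj, y, (hZ'1 j).1 hy, rfl⟩
      · have : i = ⟨k, by omega⟩ := Fin.ext h
        rw [this]
        exact hZ'2

theorem t_PGP (hSEL : S_SEL) (hREG : S_REG) (hCUT : S_CUT) (hHOM : S_HOM) : S_PGP := by
  intro d hd
  have hd0 : (0 : ℝ) ≤ d := Nat.cast_nonneg d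
  have hd1 : (1 : ℝ) ≤ d := by exact_mod_cast hd
  set M : ℝ := (2 * (d + 1)) ^ (d + 1) with hM
  have hM0 : 0 < M := by positivity
  have hfac : (0 : ℝ) < ((d + 1).factorial : ℝ) := by exact_mod_cast Nat.factorial_pos _
  set β : ℝ := 1 / (2 * ((d + 1).factorial : ℝ)) with hβ
  have hβ0 : 0 < β := by positivity
  have hM4 : 4 ≤ M := by
    have h1 : (4 : ℝ) ≤ 2 * (d + 1) := by linarith
    calc (4 : ℝ) ≤ 2 * (d + 1) := h1
      _ = (2 * (d + 1)) ^ 1 := (pow_one _).symm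
      _ ≤ M := pow_le_pow_right₀ (by linarith) (by omega)
  have hε0 : 0 < 1 / M := by positivity
  have hε4 : 1 / M ≤ 1 / 4 := one_div_le_one_div_of_le (by norm_num) hM4
  obtain ⟨c0, hc0, n2, hn2⟩ := hREG d β (1 / M) hβ0 hε0 hε4
  obtain ⟨n1, hn1⟩ := hSEL d hd
  obtain ⟨n3, hn3⟩ := exists_nat_ge ((2 * (d + 1) * d * M) / c0)
  refine ⟨c0 * (1 / M), by positivity, max n1 (max n2 n3), ?_⟩
  intro n hn X ε hε
  have h1 : n1 ≤ n := (le_max_left _ _).trans hn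
  have h2 : n2 ≤ n := (le_max_left _ _).trans ((le_max_right _ _).trans hn)
  have h3 : n3 ≤ n := (le_max_right _ _).trans ((le_max_right _ _).trans hn)
  obtain ⟨X'', p, hX, hGP, hcount⟩ := hn1 n h1 X ε hε
  have hH : β * (n : ℝ) ^ (d + 1) ≤
      (({f : Tup d n | p ∈ hullX X'' univ f}.ncard : ℕ) : ℝ) := by
    have h4 : ((n : ℝ)) ^ (d + 1) ≤ 2 * ((d + 1).factorial : ℝ) *
        (({f : Tup d n | p ∈ hullX X'' univ f}.ncard : ℕ) : ℝ) := by exact_mod_cast hcount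
    rw [hβ, one_div, inv_mul_le_iff₀ (by positivity)]
    exact h4
  obtain ⟨Y, hY1, hY2⟩ := hn2 n h2 _ hH
  have hYl : ∀ j, (2 * (d + 1) * d : ℝ) * (2 * (d + 1)) ^ (d + 1) ≤ ((Y j).card : ℝ) := by
    intro j
    refine le_trans ?_ (hY1 j)
    have h5 : (2 * (d + 1) * d * M) / c0 ≤ (n : ℝ) := hn3.trans (by exact_mod_cast h3)
    rw [div_le_iff₀ hc0] at h5
    rw [← hM]
    linarith
  obtain ⟨Z, hZ1, hZ2⟩ := pgp_iter hCUT hd X'' p hGP Y hYl (d + 1) le_rfl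
  have hZY : ∀ j, 1 / M * ((Y j).card : ℝ) ≤ ((Z j).card : ℝ) := by
    intro j
    rw [one_div, inv_mul_le_iff₀ hM0]
    exact (hZ1 j).2
  obtain ⟨f0, hf0, hf0Z⟩ := hY2 Z (fun i => ⟨(hZ1 i).1, hZY i⟩)
  refine ⟨X'', p, Z, hX, ?_, ?_⟩
  · intro i
    calc c0 * (1 / M) * (n : ℝ) = 1 / M * (c0 * n) := by ring
      _ ≤ 1 / M * ((Y i).card : ℝ) := mul_le_mul_of_nonneg_left (hY1 i) hε0.le
      _ ≤ _ := hZY i
  · exact hHOM d n X'' p Z (fun i => hZ2 i i.isLt) ⟨f0, hf0Z, hf0⟩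

end Pool.Agent.Run7.h677.PS
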